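import Pool.Agent.H23.CR.Stm

set_option autoImplicit false

/-!
# Crew CR, part CYC: a multigraph which is not 2-colourable has a cycle
-/

namespace Pool.Agent.H23.CR

open Finset Filter Pool.Agent.H999R2.KSat Pool.Agent.H320R2.CT

lemma cyc_rot {k : ℕ} (i : Fin (k + 1)) :
    (finRotate (k + 1) i).val = if i.val = k then 0 else i.val + 1 := by
  rcases i with ⟨i, hi⟩
  by_cases h : i = k
  · subst h
    rw [finRotate_last', if_pos rfl]
  · have h1 : i < k := by omega
    rw [finRotate_of_lt h1]
    simp [h]

theorem p_CYC : S_CYC := by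
  intro n m F hF
  let G : SimpleGraph (Fin n) :=
    { Adj := fun x y => ∃ j, jn (F j) x y
      symm := ⟨fun x y ⟨j, hj⟩ => ⟨j, Or.symm hj⟩⟩
      loopless := ⟨fun x ⟨j, hj⟩ => by
        rcases hj with h | h
        · exact (F j).2 (h.1.trans h.2.symm)
        · exact (F j).2 (h.1.trans h.2.symm)⟩ }
  have hG : ¬ G.IsAcyclic := by
    intro hac
    obtain ⟨C⟩ := hac.colorable_two
    apply hF
    refine ⟨fun x => C x, fun j => ?_⟩
    exact C.valid (v := (F j).1.1) (w := (F j).1.2) ⟨j, Or.inl ⟨rfl, rfl⟩⟩
  unfold SimpleGraph.IsAcyclic at hG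
  push Not at hG
  obtain ⟨v, c, hc⟩ := hG
  have h3 := hc.three_le_length
  obtain ⟨k, hk⟩ : ∃ k, c.length = k + 1 := ⟨c.length - 1, by omega⟩
  have hadj : ∀ i : Fin (k + 1), ∃ j, jn (F j) (c.getVert i) (c.getVert (i + 1)) := by
    intro i
    exact c.adj_getVert_succ (i := i) (by omega)
  choose j hj using hadj
  have hv : ∀ i : Fin (k + 1), c.getVert (finRotate (k + 1) i).val = c.getVert (i + 1) := by
    intro i
    rw [cyc_rot]
    split_ifs with h
    · rw [h, ← hk, c.getVert_length, c.getVert_zero]
    · rfl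
  have hinj := hc.getVert_injOn'
  have hinj' : ∀ a b : Fin (k + 1), c.getVert a = c.getVert b → a.val = b.val := by
    intro a b hab
    exact hinj (show a.val ≤ c.length - 1 by omega) (show b.val ≤ c.length - 1 by omega) hab
  have hjinj : Function.Injective j := by
    intro a b hab
    have h1 := hj a
    have h2 := hj b
    rw [hab, ← hv] at h1
    rw [← hv] at h2
    have e1 := cyc_rot a
    have e2 := cyc_rot b
    rcases h1 with h1 | h1 <;> rcases h2 with h2 | h2
    · exact Fin.ext (hinj' a b (h1.1.symm.trans h2.1))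
    · have h4 := hinj' a (finRotate (k + 1) b) (h1.1.symm.trans h2.1)
      have h5 := hinj' (finRotate (k + 1) a) b (h1.2.symm.trans h2.2)
      rw [e2] at h4
      rw [e1] at h5
      split_ifs at h4 h5 <;> omega
    · have h4 := hinj' (finRotate (k + 1) a) b (h1.1.symm.trans h2.1)
      have h5 := hinj' a (finRotate (k + 1) b) (h1.2.symm.trans h2.2)
      rw [e1] at h4
      rw [e2] at h5
      split_ifs at h4 h5 <;> omega
    · exact Fin.ext (hinj' a b (h1.2.symm.trans h2.2))
  refine ⟨k + 1, by omega, ?_, fun i => c.getVert i, j, hjinj, fun i => ?_⟩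
  · have := Fintype.card_le_of_injective j hjinj
    simpa using this
  · have h1 := hj i
    rw [← hv] at h1
    exact h1

end Pool.Agent.H23.CR
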